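import Pool.Agent.Lib.MP_2b07f9_gt.Mfd.Nrm

/-! Transfer between the manifold and charts. -/

set_option autoImplicit false

open scoped Manifold ContDiff
open Module

namespace Bry.Mfd

variable {M : Type*} [TopologicalSpace M] [ChartedSpace E3 M]

/-- the differential of the inverse chart as a linear equivalence. -/
theorem bridge [IsManifold 𝓘(ℝ, E3) ∞ M] (p : M) {x : E3}
    (hx : x ∈ (extChartAt 𝓘(ℝ, E3) p).target) :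
    ∃ D : E3 ≃ₗ[ℝ] TangentSpace 𝓘(ℝ, E3) ((extChartAt 𝓘(ℝ, E3) p).symm x),
      ∀ G : M → E5, MDifferentiableAt 𝓘(ℝ, E3) 𝓘(ℝ, E5) G ((extChartAt 𝓘(ℝ, E3) p).symm x) →
        DifferentiableAt ℝ (G ∘ (extChartAt 𝓘(ℝ, E3) p).symm) x ∧
        ∀ w, fderiv ℝ (G ∘ (extChartAt 𝓘(ℝ, E3) p).symm) x w
          = mfderiv 𝓘(ℝ, E3) 𝓘(ℝ, E5) G ((extChartAt 𝓘(ℝ, E3) p).symm x) (D w) := by
  have h1 : IsManifold 𝓘(ℝ, E3) 1 M := IsManifold.of_le (n := ∞) (by simp)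
  obtain ⟨e, he⟩ := isInvertible_mfderivWithin_extChartAt_symm (I := 𝓘(ℝ, E3)) hx
  have hd : MDifferentiableWithinAt 𝓘(ℝ, E3) 𝓘(ℝ, E3) (extChartAt 𝓘(ℝ, E3) p).symm
      (Set.range 𝓘(ℝ, E3)) x := mdifferentiableWithinAt_extChartAt_symm hx
  rw [modelWithCornersSelf_coe, Set.range_id, mdifferentiableWithinAt_univ] at hd
  refine ⟨e.toLinearEquiv, fun G hG => ?_⟩
  have h2 : MDifferentiableAt 𝓘(ℝ, E3) 𝓘(ℝ, E5) (G ∘ (extChartAt 𝓘(ℝ, E3) p).symm) x :=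
    hG.comp x hd
  refine ⟨mdifferentiableAt_iff_differentiableAt.1 h2, fun w => ?_⟩
  have h3 := mfderiv_comp x hG hd
  rw [mfderiv_eq_fderiv] at h3
  rw [h3]
  have h4 : mfderiv 𝓘(ℝ, E3) 𝓘(ℝ, E3) (extChartAt 𝓘(ℝ, E3) p).symm x
      = mfderivWithin 𝓘(ℝ, E3) 𝓘(ℝ, E3) (extChartAt 𝓘(ℝ, E3) p).symm
          (Set.range 𝓘(ℝ, E3)) x := by
    rw [modelWithCornersSelf_coe, Set.range_id, mfderivWithin_univ]
  rw [h4, ← he]
  rfl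

end Bry.Mfd
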