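import Mathlib

/-! Definitions for the literal (manifold) form of the local Chern conjecture in `S⁴`: immersed
hypersurfaces of the unit sphere of a Euclidean space `E'` (in the theorem `E' = ℝ⁵`), parametrised
by a manifold `M` modelled on `E` (in the theorem `E = ℝ³`). -/

set_option autoImplicit false

open scoped Manifold ContDiff

namespace Bry.Mfd

/-- Euclidean 3-space, the model space of the manifolds `M³`. -/
abbrev E3 := EuclideanSpace ℝ (Fin 3)

/-- Euclidean 5-space, in which the unit sphere `S⁴` lives. -/
abbrev E5 := EuclideanSpace ℝ (Fin 5)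

section
variable (E : Type*) [NormedAddCommGroup E] [NormedSpace ℝ E]
  {E' : Type*} [NormedAddCommGroup E'] [InnerProductSpace ℝ E']
  {M : Type*} [TopologicalSpace M] [ChartedSpace E M]

/-- The tangent space `T_qM` of a manifold modelled on `E`. -/
abbrev Tan (q : M) : Type _ := TangentSpace 𝓘(ℝ, E) q

/-- The differential `dG_q : T_qM → E'` of a map `G : M → E'`. -/
noncomputable def diff (G : M → E') (q : M) : Tan E q →L[ℝ] E' :=
  mfderiv 𝓘(ℝ, E) 𝓘(ℝ, E') G q

/-- `F : M → E'` is a smooth immersion into the unit sphere of `E'`. -/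
structure IsHypersurface (F : M → E') : Prop where
  /-- `F` is smooth -/
  smooth : ContMDiff 𝓘(ℝ, E) 𝓘(ℝ, E') ∞ F
  /-- the differential of `F` is injective at each point -/
  immersion : ∀ p : M, Function.Injective (diff E F p)
  /-- `F` takes values in the unit sphere -/
  norm_eq : ∀ p : M, ‖F p‖ = 1

/-- `ν` is, on the open set `V ⊆ M`, a smooth unit normal field of the hypersurface `F`:
unit vectors, tangent to the sphere (orthogonal to `F`) and orthogonal to the image of the
differential of `F`. -/
structure IsUnitNormal (F : M → E') (V : Set M) (ν : M → E') : Prop where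
  /-- `V` is open -/
  isOpen : IsOpen V
  /-- `ν` is smooth on `V` -/
  smooth : ContMDiffOn 𝓘(ℝ, E) 𝓘(ℝ, E') ∞ ν V
  /-- unit vectors -/
  norm_eq : ∀ q ∈ V, ‖ν q‖ = 1
  /-- tangent to the sphere -/
  orth : ∀ q ∈ V, inner ℝ (F q) (ν q) = 0
  /-- orthogonal to the image of `dF` -/
  orth_d : ∀ q ∈ V, ∀ v : Tan E q, inner ℝ (diff E F q v) (ν q) = 0

/-- `A : T_pM → T_pM` is the shape operator of `F` at `p` with respect to the unit normal
field `ν`: `dF (A v) = - dν (v)` for all tangent vectors `v`. -/
def IsShapeOperator (F ν : M → E') (p : M) (A : Tan E p →ₗ[ℝ] Tan E p) : Prop :=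
  ∀ v : Tan E p, diff E F p (A v) = - diff E ν p v

/-- `F` is minimal: the trace of each of its shape operators vanishes. -/
def IsMinimal (F : M → E') : Prop :=
  ∀ (V : Set M) (ν : M → E'), IsUnitNormal E F V ν → ∀ q ∈ V,
    ∀ A, IsShapeOperator E F ν q A → LinearMap.trace ℝ (Tan E q) A = 0

/-- the squared length `σ = |A|² = tr A²` of the second fundamental form of `F` is the
constant `c`. -/
def HasConstantSigma (F : M → E') (c : ℝ) : Prop :=
  ∀ (V : Set M) (ν : M → E'), IsUnitNormal E F V ν → ∀ q ∈ V,
    ∀ A, IsShapeOperator E F ν q A → LinearMap.trace ℝ (Tan E q) (A * A) = c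

instance instFinTangent [FiniteDimensional ℝ E] (q : M) : Module.Finite ℝ (TangentSpace 𝓘(ℝ, E) q) :=
  inferInstanceAs (Module.Finite ℝ E)

/-- `F` is isoparametric (for `M` of dimension 3): there are three real numbers `κ₀, κ₁, κ₂`
such that on each connected open set `V` with a smooth unit normal field `ν` the principal
curvatures (the eigenvalues of the shape operators with respect to `ν`, with multiplicities) are
at all points of `V` the numbers `κ₀, κ₁, κ₂`, or at all points of `V` the numbers
`-κ₀, -κ₁, -κ₂` (the two choices of the unit normal). -/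
def IsIsoparametric [FiniteDimensional ℝ E] (F : M → E') : Prop :=
  ∃ κ : Fin 3 → ℝ, ∀ (V : Set M) (ν : M → E'), IsUnitNormal E F V ν → IsPreconnected V →
    ∃ s : ℝ, (s = 1 ∨ s = -1) ∧ ∀ q ∈ V, ∀ A, IsShapeOperator E F ν q A →
      LinearMap.charpoly (M := Tan E q) A = ∏ i, (Polynomial.X - Polynomial.C (s * κ i))

end

end Bry.Mfd
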