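import Pool.Agent.Lib.MP_2b07f9_gt.Mfd.Mat
import Pool.Agent.Lib.MP_2b07f9_gt.Final

/-! Geometry on the manifold: existence, uniqueness and local constancy. -/

set_option autoImplicit false

open scoped Manifold ContDiff Topology
open Module

namespace Bry.Mfd

variable {M : Type*} [TopologicalSpace M] [ChartedSpace E3 M]

/-- the part of the target of the chart at `p` that corresponds to `V` -/
def tgt (p : M) (V : Set M) : Set E3 :=
  (extChartAt 𝓘(ℝ, E3) p).target ∩ (extChartAt 𝓘(ℝ, E3) p).symm ⁻¹' V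

theorem isOpen_tgt (p : M) {V : Set M} (hV : IsOpen V) : IsOpen (tgt p V) :=
  (continuousOn_extChartAt_symm p).isOpen_inter_preimage (isOpen_extChartAt_target p) hV

theorem smooth_comp [IsManifold 𝓘(ℝ, E3) ∞ M] (p : M) {V : Set M} {G : M → E5}
    (hG : ContMDiffOn 𝓘(ℝ, E3) 𝓘(ℝ, E5) ∞ G V) :
    ContDiffOn ℝ ∞ (G ∘ (extChartAt 𝓘(ℝ, E3) p).symm) (tgt p V) := by
  rw [← contMDiffOn_iff_contDiffOn]
  refine ContMDiffOn.comp hG ((contMDiffOn_extChartAt_symm p).mono Set.inter_subset_left) ?_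
  exact fun x hx => hx.2

theorem mdiffAt {V : Set M} (hV : IsOpen V) {G : M → E5}
    (hG : ContMDiffOn 𝓘(ℝ, E3) 𝓘(ℝ, E5) ∞ G V) {q : M} (hq : q ∈ V) :
    MDifferentiableAt 𝓘(ℝ, E3) 𝓘(ℝ, E5) G q :=
  (hG.mdifferentiableOn (by simp)).mdifferentiableAt (hV.mem_nhds hq)

/-- the data of a chart patch: everything at the point `x` of the chart at `p`. -/
structure Patch (F ν : M → E5) (p : M) (x : E3)
    (D : E3 ≃ₗ[ℝ] TangentSpace 𝓘(ℝ, E3) ((extChartAt 𝓘(ℝ, E3) p).symm x)) : Prop where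
  dF : ∀ w, fderiv ℝ (F ∘ (extChartAt 𝓘(ℝ, E3) p).symm) x w
      = mfderiv 𝓘(ℝ, E3) 𝓘(ℝ, E5) F ((extChartAt 𝓘(ℝ, E3) p).symm x) (D w)
  dν : ∀ w, fderiv ℝ (ν ∘ (extChartAt 𝓘(ℝ, E3) p).symm) x w
      = mfderiv 𝓘(ℝ, E3) 𝓘(ℝ, E5) ν ((extChartAt 𝓘(ℝ, E3) p).symm x) (D w)

variable [IsManifold 𝓘(ℝ, E3) ∞ M]

theorem exists_patch {F ν : M → E5} {V : Set M} (hF : IsHypersurface E3 F)
    (hν : IsUnitNormal E3 F V ν) (p : M) {x : E3} (hx : x ∈ tgt p V) :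
    ∃ D, Patch F ν p x D := by
  obtain ⟨D, hD⟩ := bridge p hx.1
  refine ⟨D, ⟨fun w => (hD F ?_).2 w, fun w => (hD ν ?_).2 w⟩⟩
  · exact hF.smooth.mdifferentiableAt (by simp)
  · exact mdiffAt hν.isOpen hν.smooth hx.2

theorem inj_patch {F : M → E5} (hF : IsHypersurface E3 F) (p : M) {x : E3}
    (hx : x ∈ (extChartAt 𝓘(ℝ, E3) p).target) :
    Function.Injective (fderiv ℝ (F ∘ (extChartAt 𝓘(ℝ, E3) p).symm) x) := by
  obtain ⟨D, hD⟩ := bridge p hx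
  have h := (hD F (hF.smooth.mdifferentiableAt (by simp))).2
  intro v w hvw
  rw [h, h] at hvw
  exact D.injective (hF.immersion _ hvw)

theorem normal_patch {F ν : M → E5} {V : Set M} (hF : IsHypersurface E3 F)
    (hν : IsUnitNormal E3 F V ν) (p : M) {x : E3} (hx : x ∈ tgt p V) (w : E3) :
    inner ℝ (fderiv ℝ (F ∘ (extChartAt 𝓘(ℝ, E3) p).symm) x w)
      ((ν ∘ (extChartAt 𝓘(ℝ, E3) p).symm) x) = (0 : ℝ) := by
  obtain ⟨D, hD⟩ := exists_patch hF hν p hx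
  rw [hD.dF]
  exact hν.orth_d _ hx.2 _

/-- orthogonality of the differential of `ν` to `ν` and to `F`. -/
theorem dnu_orth {F ν : M → E5} {V : Set M} (hF : IsHypersurface E3 F)
    (hν : IsUnitNormal E3 F V ν) (p : M) {x : E3} (hx : x ∈ tgt p V) (w : E3) :
    inner ℝ (fderiv ℝ (ν ∘ (extChartAt 𝓘(ℝ, E3) p).symm) x w)
      ((F ∘ (extChartAt 𝓘(ℝ, E3) p).symm) x) = (0 : ℝ) ∧
    inner ℝ (fderiv ℝ (ν ∘ (extChartAt 𝓘(ℝ, E3) p).symm) x w)
      ((ν ∘ (extChartAt 𝓘(ℝ, E3) p).symm) x) = (0 : ℝ) ∧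
    inner ℝ (fderiv ℝ (F ∘ (extChartAt 𝓘(ℝ, E3) p).symm) x w)
      ((F ∘ (extChartAt 𝓘(ℝ, E3) p).symm) x) = (0 : ℝ) := by
  have hO := isOpen_tgt p hν.isOpen
  have hf := smooth_comp p (hF.smooth.contMDiffOn (s := V))
  have hn := smooth_comp p hν.smooth
  have hfd : ∀ y ∈ tgt p V, DifferentiableAt ℝ (F ∘ (extChartAt 𝓘(ℝ, E3) p).symm) y :=
    fun y hy => (hf.differentiableOn (by simp)).differentiableAt (hO.mem_nhds hy)
  have hnd : ∀ y ∈ tgt p V, DifferentiableAt ℝ (ν ∘ (extChartAt 𝓘(ℝ, E3) p).symm) y :=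
    fun y hy => (hn.differentiableOn (by simp)).differentiableAt (hO.mem_nhds hy)
  have h1 := inner_deriv_eq_zero hO hfd hnd 0 (fun y hy => hν.orth _ hy.2) hx w
  have h2 := inner_deriv_eq_zero hO hnd hnd 1 (fun y hy => by
    rw [real_inner_self_eq_norm_sq, Function.comp_apply, hν.norm_eq _ hy.2]; norm_num) hx w
  have h3 := inner_deriv_eq_zero hO hfd hfd 1 (fun y hy => by
    rw [real_inner_self_eq_norm_sq, Function.comp_apply, hF.norm_eq]; norm_num) hx w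
  rw [normal_patch hF hν p hx, add_zero] at h1
  refine ⟨by rw [real_inner_comm]; exact h1, ?_, ?_⟩
  · rw [real_inner_comm (fderiv ℝ (ν ∘ (extChartAt 𝓘(ℝ, E3) p).symm) x w)] at h2
    linarith
  · rw [real_inner_comm (fderiv ℝ (F ∘ (extChartAt 𝓘(ℝ, E3) p).symm) x w)] at h3
    linarith

theorem exists_shape_patch {F ν : M → E5} {V : Set M} (hF : IsHypersurface E3 F)
    (hν : IsUnitNormal E3 F V ν) (p : M) {x : E3} (hx : x ∈ tgt p V) :
    ∃ A, IsShapeOperator E3 F ν ((extChartAt 𝓘(ℝ, E3) p).symm x) A := by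
  obtain ⟨D, hD⟩ := exists_patch hF hν p hx
  set L : E3 →L[ℝ] E5 := fderiv ℝ (F ∘ (extChartAt 𝓘(ℝ, E3) p).symm) x with hL
  set N : E3 →L[ℝ] E5 := fderiv ℝ (ν ∘ (extChartAt 𝓘(ℝ, E3) p).symm) x with hN
  have hinj : Function.Injective L := inj_patch hF p hx.1
  have hmem : ∀ w, (-(N : E3 →ₗ[ℝ] E5)) w ∈ LinearMap.range (L : E3 →ₗ[ℝ] E5) := by
    intro w
    have h := dnu_orth hF hν p hx w
    obtain ⟨u, hu⟩ := exists_preimage (L : E3 →ₗ[ℝ] E5) hinj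
      ((F ∘ (extChartAt 𝓘(ℝ, E3) p).symm) x) ((ν ∘ (extChartAt 𝓘(ℝ, E3) p).symm) x)
      (hF.norm_eq _) (hν.norm_eq _ hx.2) (hν.orth _ hx.2)
      (fun w => (dnu_orth hF hν p hx w).2.2) (fun w => normal_patch hF hν p hx w)
      (N w) h.1 h.2.1
    refine ⟨-u, ?_⟩
    rw [map_neg, hu]; rfl
  let T : E3 →ₗ[ℝ] E3 :=
    ((LinearEquiv.ofInjective (L : E3 →ₗ[ℝ] E5) hinj).symm : _ →ₗ[ℝ] E3).comp
      (LinearMap.codRestrict (LinearMap.range (L : E3 →ₗ[ℝ] E5)) (-(N : E3 →ₗ[ℝ] E5)) hmem)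
  have hT : ∀ w, L (T w) = - N w := by
    intro w
    have := congrArg Subtype.val ((LinearEquiv.ofInjective (L : E3 →ₗ[ℝ] E5) hinj).apply_symm_apply
      (LinearMap.codRestrict (LinearMap.range (L : E3 →ₗ[ℝ] E5)) (-(N : E3 →ₗ[ℝ] E5)) hmem w))
    exact this
  refine ⟨D.conj T, fun v => ?_⟩
  have h1 : diff E3 F _ (D (T (D.symm v))) = L (T (D.symm v)) := (hD.dF _).symm
  have h2 : diff E3 ν _ v = N (D.symm v) := by
    rw [hN, hD.dν, D.apply_symm_apply]; rfl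
  rw [LinearEquiv.conj_apply_apply, h1, h2, hT]

theorem exists_shape {F ν : M → E5} {V : Set M} (hF : IsHypersurface E3 F)
    (hν : IsUnitNormal E3 F V ν) {q : M} (hq : q ∈ V) : ∃ A, IsShapeOperator E3 F ν q A := by
  have h1 : (extChartAt 𝓘(ℝ, E3) q).symm (extChartAt 𝓘(ℝ, E3) q q) = q :=
    extChartAt_to_inv q
  have h2 : extChartAt 𝓘(ℝ, E3) q q ∈ tgt q V := by
    refine ⟨mem_extChartAt_target q, ?_⟩
    rw [Set.mem_preimage, h1]; exact hq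
  have h3 := exists_shape_patch hF hν q h2
  rwa [h1] at h3

omit [IsManifold 𝓘(ℝ, E3) ∞ M] in
theorem shape_unique {F ν : M → E5} (hF : IsHypersurface E3 F) {q : M}
    {A B : TangentSpace 𝓘(ℝ, E3) q →ₗ[ℝ] TangentSpace 𝓘(ℝ, E3) q}
    (hA : IsShapeOperator E3 F ν q A) (hB : IsShapeOperator E3 F ν q B) : A = B := by
  ext1 v
  apply hF.immersion q
  rw [hA v, hB v]

theorem shape_sign_patch {F ν ν' : M → E5} {V V' : Set M} (hF : IsHypersurface E3 F)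
    (hν : IsUnitNormal E3 F V ν) (hν' : IsUnitNormal E3 F V' ν') (p : M) {x : E3}
    (hx : x ∈ tgt p V) (hx' : x ∈ tgt p V')
    {A B : TangentSpace 𝓘(ℝ, E3) ((extChartAt 𝓘(ℝ, E3) p).symm x) →ₗ[ℝ]
      TangentSpace 𝓘(ℝ, E3) ((extChartAt 𝓘(ℝ, E3) p).symm x)}
    (hA : IsShapeOperator E3 F ν ((extChartAt 𝓘(ℝ, E3) p).symm x) A)
    (hB : IsShapeOperator E3 F ν' ((extChartAt 𝓘(ℝ, E3) p).symm x) B) : B = A ∨ B = -A := by
  set f := F ∘ (extChartAt 𝓘(ℝ, E3) p).symm with hf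
  set n := ν ∘ (extChartAt 𝓘(ℝ, E3) p).symm with hn
  set n' := ν' ∘ (extChartAt 𝓘(ℝ, E3) p).symm with hn'
  set C := tgt p V ∩ tgt p V' with hC
  have hCo : IsOpen C := (isOpen_tgt p hν.isOpen).inter (isOpen_tgt p hν'.isOpen)
  have key : ∀ y ∈ C, n' y = (inner ℝ (n' y) (n y) : ℝ) • n y := by
    rintro y ⟨hy, hy'⟩
    refine eq_smul_normal (fderiv ℝ f y : E3 →ₗ[ℝ] E5) (inj_patch hF p hy.1) (f y) (n y)
      (hF.norm_eq _) (hν.norm_eq _ hy.2) (hν.orth _ hy.2)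
      (fun w => (dnu_orth hF hν p hy w).2.2) (fun w => normal_patch hF hν p hy w) (n' y) ?_ ?_
    · rw [real_inner_comm]; exact hν'.orth _ hy'.2
    · exact fun w => normal_patch hF hν' p hy' w
  have hval : ∀ y ∈ C, (inner ℝ (n' y) (n y) : ℝ) = 1 ∨ (inner ℝ (n' y) (n y) : ℝ) = -1 := by
    rintro y hy
    have h1 := congrArg norm (key y hy)
    rw [norm_smul] at h1
    have h2 : ‖n y‖ = 1 := hν.norm_eq _ hy.1.2
    have h3 : ‖n' y‖ = 1 := hν'.norm_eq _ hy.2.2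
    rw [h2, h3, mul_one, Real.norm_eq_abs] at h1
    exact eq_or_eq_neg_of_abs_eq h1.symm
  have hcont : ContinuousAt (fun y => (inner ℝ (n' y) (n y) : ℝ)) x := by
    have c1 : ContinuousAt n x := ((smooth_comp p hν.smooth).continuousOn).continuousAt
      ((isOpen_tgt p hν.isOpen).mem_nhds hx)
    have c2 : ContinuousAt n' x := ((smooth_comp p hν'.smooth).continuousOn).continuousAt
      ((isOpen_tgt p hν'.isOpen).mem_nhds hx')
    exact c2.inner c1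
  have hev : ∀ᶠ y in 𝓝 x, (inner ℝ (n' y) (n y) : ℝ) = inner ℝ (n' x) (n x) := by
    have h1 := hcont.eventually (Metric.ball_mem_nhds _ one_pos)
    filter_upwards [h1, hCo.mem_nhds ⟨hx, hx'⟩] with y hy hyC
    rw [Real.dist_eq, abs_lt] at hy
    rcases hval y hyC with h | h <;> rcases hval x ⟨hx, hx'⟩ with h' | h' <;>
      rw [h, h'] at hy ⊢ <;> norm_num at hy
  have hev' : n' =ᶠ[𝓝 x] fun y => (inner ℝ (n' x) (n x) : ℝ) • n y := by
    filter_upwards [hev, hCo.mem_nhds ⟨hx, hx'⟩] with y hy hyC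
    rw [← hy]; exact key y hyC
  have hnd : DifferentiableAt ℝ n x :=
    ((smooth_comp p hν.smooth).differentiableOn (by simp)).differentiableAt
      ((isOpen_tgt p hν.isOpen).mem_nhds hx)
  have hder : ∀ w, fderiv ℝ n' x w = (inner ℝ (n' x) (n x) : ℝ) • fderiv ℝ n x w := by
    intro w
    rw [hev'.fderiv_eq, fderiv_fun_const_smul hnd]
    rfl
  obtain ⟨D, hD⟩ := exists_patch hF hν p hx
  obtain ⟨D0, hD0⟩ := bridge p hx.1
  have e1 : ∀ w, fderiv ℝ n x w = mfderiv 𝓘(ℝ, E3) 𝓘(ℝ, E5) ν _ (D0 w) :=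
    (hD0 ν (mdiffAt hν.isOpen hν.smooth hx.2)).2
  have e2 : ∀ w, fderiv ℝ n' x w = mfderiv 𝓘(ℝ, E3) 𝓘(ℝ, E5) ν' _ (D0 w) :=
    (hD0 ν' (mdiffAt hν'.isOpen hν'.smooth hx'.2)).2
  have e3 : ∀ v, mfderiv 𝓘(ℝ, E3) 𝓘(ℝ, E5) ν' ((extChartAt 𝓘(ℝ, E3) p).symm x) v
      = (inner ℝ (n' x) (n x) : ℝ) •
        mfderiv 𝓘(ℝ, E3) 𝓘(ℝ, E5) ν ((extChartAt 𝓘(ℝ, E3) p).symm x) v := by
    intro v
    have h1 := hder (D0.symm v)
    rw [e1, e2, D0.apply_symm_apply] at h1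
    exact h1
  have e4 : ∀ v, B v = (inner ℝ (n' x) (n x) : ℝ) • A v := by
    intro v
    apply hF.immersion
    rw [map_smul]
    have h1 := hB v
    have h2 := hA v
    have h3 : diff E3 ν' _ v = (inner ℝ (n' x) (n x) : ℝ) • diff E3 ν _ v := e3 v
    rw [h1, h2, h3, smul_neg]
  rcases hval x ⟨hx, hx'⟩ with h | h
  · left
    ext1 v
    rw [e4 v, h, one_smul]
  · right
    ext1 v
    rw [e4 v, h, neg_smul, one_smul]
    rfl

theorem shape_sign {F ν ν' : M → E5} {V V' : Set M} (hF : IsHypersurface E3 F)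
    (hν : IsUnitNormal E3 F V ν) (hν' : IsUnitNormal E3 F V' ν') {q : M} (hq : q ∈ V) (hq' : q ∈ V')
    {A B : TangentSpace 𝓘(ℝ, E3) q →ₗ[ℝ] TangentSpace 𝓘(ℝ, E3) q}
    (hA : IsShapeOperator E3 F ν q A) (hB : IsShapeOperator E3 F ν' q B) : B = A ∨ B = -A := by
  have h1 : (extChartAt 𝓘(ℝ, E3) q).symm (extChartAt 𝓘(ℝ, E3) q q) = q :=
    extChartAt_to_inv q
  have h2 : extChartAt 𝓘(ℝ, E3) q q ∈ tgt q V := by
    refine ⟨mem_extChartAt_target q, ?_⟩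
    rw [Set.mem_preimage, h1]; exact hq
  have h2' : extChartAt 𝓘(ℝ, E3) q q ∈ tgt q V' := by
    refine ⟨mem_extChartAt_target q, ?_⟩
    rw [Set.mem_preimage, h1]; exact hq'
  have h3 : ∀ (A B : TangentSpace 𝓘(ℝ, E3)
        ((extChartAt 𝓘(ℝ, E3) q).symm (extChartAt 𝓘(ℝ, E3) q q)) →ₗ[ℝ]
      TangentSpace 𝓘(ℝ, E3) ((extChartAt 𝓘(ℝ, E3) q).symm (extChartAt 𝓘(ℝ, E3) q q))),
      IsShapeOperator E3 F ν ((extChartAt 𝓘(ℝ, E3) q).symm (extChartAt 𝓘(ℝ, E3) q q)) A →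
      IsShapeOperator E3 F ν' ((extChartAt 𝓘(ℝ, E3) q).symm (extChartAt 𝓘(ℝ, E3) q q)) B →
      B = A ∨ B = -A := fun A B hA hB => shape_sign_patch hF hν hν' q h2 h2' hA hB
  rw [h1] at h3
  exact h3 A B hA hB

end Bry.Mfd
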