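import Pool.Agent.Lib.MP_2b07f9_gt.Mfd.Defs

/-! Euclidean part: linear algebra of unit normals, existence of local unit normals. -/

set_option autoImplicit false

open scoped Manifold ContDiff
open Module

namespace Bry.Mfd

/-- five vectors: an injective image of `E3` and two orthonormal vectors orthogonal to it
span `E5`. -/
theorem exists_preimage (L : E3 →ₗ[ℝ] E5) (hL : Function.Injective L) (a n : E5)
    (ha : ‖a‖ = 1) (hn : ‖n‖ = 1) (han : inner ℝ a n = 0)
    (hLa : ∀ w, inner ℝ (L w) a = 0) (hLn : ∀ w, inner ℝ (L w) n = 0)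
    (v : E5) (hva : inner ℝ v a = 0) (hvn : inner ℝ v n = 0) : ∃ w, L w = v := by
  classical
  have haa : inner ℝ a a = (1 : ℝ) := by rw [real_inner_self_eq_norm_sq, ha]; norm_num
  have hnn : inner ℝ n n = (1 : ℝ) := by rw [real_inner_self_eq_norm_sq, hn]; norm_num
  have hna : inner ℝ n a = (0 : ℝ) := by rw [real_inner_comm]; exact han
  -- the linear map `E3 × ℝ × ℝ → E5`
  let Φ : (E3 × ℝ × ℝ) →ₗ[ℝ] E5 :=
    L.coprod ((LinearMap.toSpanSingleton ℝ E5 a).coprod (LinearMap.toSpanSingleton ℝ E5 n))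
  have hΦ : ∀ w s t, Φ (w, s, t) = L w + (s • a + t • n) := by
    intro w s t
    simp [Φ, LinearMap.coprod_apply, LinearMap.toSpanSingleton_apply]
  have hinj : Function.Injective Φ := by
    rw [injective_iff_map_eq_zero]
    rintro ⟨w, s, t⟩ h
    rw [hΦ] at h
    have h1 : inner ℝ (L w + (s • a + t • n)) a = (0 : ℝ) := by rw [h, inner_zero_left]
    have h2 : inner ℝ (L w + (s • a + t • n)) n = (0 : ℝ) := by rw [h, inner_zero_left]
    rw [inner_add_left, inner_add_left, inner_smul_left, inner_smul_left, hLa, haa, hna] at h1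
    rw [inner_add_left, inner_add_left, inner_smul_left, inner_smul_left, hLn, hnn, han] at h2
    simp at h1 h2
    subst h1 h2
    simp at h
    have : w = 0 := hL (by rw [h, map_zero])
    simp [this]
  have hfr : finrank ℝ (E3 × ℝ × ℝ) = finrank ℝ E5 := by
    simp [Module.finrank_prod]
  have hsurj : Function.Surjective Φ :=
    (LinearMap.injective_iff_surjective_of_finrank_eq_finrank hfr).1 hinj
  obtain ⟨⟨w, s, t⟩, h⟩ := hsurj v
  rw [hΦ] at h
  have h1 : inner ℝ (L w + (s • a + t • n)) a = (0 : ℝ) := by rw [h, hva]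
  have h2 : inner ℝ (L w + (s • a + t • n)) n = (0 : ℝ) := by rw [h, hvn]
  rw [inner_add_left, inner_add_left, inner_smul_left, inner_smul_left, hLa, haa, hna] at h1
  rw [inner_add_left, inner_add_left, inner_smul_left, inner_smul_left, hLn, hnn, han] at h2
  simp at h1 h2
  subst h1 h2
  exact ⟨w, by simpa using h⟩

/-- a vector orthogonal to `a` and to the image of `L` is a multiple of `n`. -/
theorem eq_smul_normal (L : E3 →ₗ[ℝ] E5) (hL : Function.Injective L) (a n : E5)
    (ha : ‖a‖ = 1) (hn : ‖n‖ = 1) (han : inner ℝ a n = 0)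
    (hLa : ∀ w, inner ℝ (L w) a = 0) (hLn : ∀ w, inner ℝ (L w) n = 0)
    (v : E5) (hva : inner ℝ v a = 0) (hvL : ∀ w, inner ℝ (L w) v = 0) :
    v = (inner ℝ v n : ℝ) • n := by
  have hnn : inner ℝ n n = (1 : ℝ) := by rw [real_inner_self_eq_norm_sq, hn]; norm_num
  have hna : inner ℝ n a = (0 : ℝ) := by rw [real_inner_comm]; exact han
  set u : E5 := v - (inner ℝ v n : ℝ) • n with hu
  have h1 : inner ℝ u a = (0 : ℝ) := by
    rw [hu, inner_sub_left, inner_smul_left, hva, hna]; simp
  have h2 : inner ℝ u n = (0 : ℝ) := by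
    rw [hu, inner_sub_left, inner_smul_left, hnn]; simp
  obtain ⟨w, hw⟩ := exists_preimage L hL a n ha hn han hLa hLn u h1 h2
  have h3 : inner ℝ u u = (0 : ℝ) := by
    conv_lhs => rw [← hw]
    rw [hw.symm.symm]
    have : inner ℝ (L w) u = inner ℝ (L w) v - (inner ℝ v n : ℝ) * inner ℝ (L w) n := by
      rw [hu, inner_sub_right, inner_smul_right]
    rw [← hw] at this ⊢
    rw [this, hvL, hLn]; ring
  have h4 : u = 0 := inner_self_eq_zero.1 h3
  rw [hu] at h4
  exact sub_eq_zero.1 h4

/-- the characteristic polynomial of a `3 × 3` matrix through the traces of its powers -/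
theorem charpoly_three (S : Matrix (Fin 3) (Fin 3) ℝ) :
    S.charpoly = Polynomial.X ^ 3 - Polynomial.C S.trace * Polynomial.X ^ 2
      + Polynomial.C ((S.trace ^ 2 - (S * S).trace) / 2) * Polynomial.X
      - Polynomial.C ((S.trace ^ 3 - 3 * S.trace * (S * S).trace + 2 * (S * S * S).trace) / 6) := by
  have e2 : (S.trace ^ 2 - (S * S).trace) / 2
      = S 0 0 * S 1 1 - S 0 1 * S 1 0 + (S 0 0 * S 2 2 - S 0 2 * S 2 0)
        + (S 1 1 * S 2 2 - S 1 2 * S 2 1) := by
    simp only [Matrix.trace, Matrix.diag, Fin.sum_univ_three, Matrix.mul_apply]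
    ring
  have e3 : (S.trace ^ 3 - 3 * S.trace * (S * S).trace + 2 * (S * S * S).trace) / 6
      = S.det := by
    rw [Matrix.det_fin_three]
    simp only [Matrix.trace, Matrix.diag, Fin.sum_univ_three, Matrix.mul_apply]
    ring
  rw [e2, e3, Matrix.det_fin_three, Matrix.charpoly, Matrix.det_fin_three]
  simp only [Matrix.charmatrix_apply, Matrix.trace, Matrix.diag, Fin.sum_univ_three]
  simp [Matrix.diagonal]
  ring

end Bry.Mfd
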