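import Pool.Agent.Lib.MP_2b07f9_gt.Mfd.Sym

/-! The local Chern conjecture in `S⁴` on connected manifolds. -/

set_option autoImplicit false

open scoped Manifold ContDiff Topology
open Module

namespace Bry.Mfd

variable {M : Type*} [TopologicalSpace M] [ChartedSpace E3 M] [IsManifold 𝓘(ℝ, E3) ∞ M]

theorem traces_patch {F ν : M → E5} {V : Set M} (hF : IsHypersurface E3 F)
    (hν : IsUnitNormal E3 F V ν) (p : M) {x : E3} (hx : x ∈ tgt p V)
    {A : TangentSpace 𝓘(ℝ, E3) ((extChartAt 𝓘(ℝ, E3) p).symm x) →ₗ[ℝ]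
      TangentSpace 𝓘(ℝ, E3) ((extChartAt 𝓘(ℝ, E3) p).symm x)}
    (hA : IsShapeOperator E3 F ν ((extChartAt 𝓘(ℝ, E3) p).symm x) A) (S : Matrix (Fin 3) (Fin 3) ℝ)
    (hS : S = (gram (fderiv ℝ (F ∘ (extChartAt 𝓘(ℝ, E3) p).symm) x))⁻¹ *
      sff (fderiv ℝ (F ∘ (extChartAt 𝓘(ℝ, E3) p).symm) x)
        (fderiv ℝ (ν ∘ (extChartAt 𝓘(ℝ, E3) p).symm) x)) :
    S.trace = LinearMap.trace ℝ _ A ∧ (S * S).trace = LinearMap.trace ℝ _ (A * A) ∧
    (S * S * S).trace = LinearMap.trace ℝ _ (A * A * A) ∧ S.charpoly = A.charpoly := by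
  obtain ⟨D, hD⟩ := exists_patch hF hν p hx
  subst hS
  refine coord_traces _ _ (inj_patch hF p hx.1) D A fun w => ?_
  rw [hD.dF, D.apply_symm_apply, hD.dν]
  exact hA (D w)

omit [IsManifold 𝓘(ℝ, E3) ∞ M] in
theorem charpoly_shape {q : M}
    (A : TangentSpace 𝓘(ℝ, E3) q →ₗ[ℝ] TangentSpace 𝓘(ℝ, E3) q) (c t : ℝ)
    (h1 : LinearMap.trace ℝ _ A = 0) (h2 : LinearMap.trace ℝ _ (A * A) = c)
    (h3 : LinearMap.trace ℝ _ (A * A * A) = t) :
    A.charpoly = Polynomial.X ^ 3 - Polynomial.C (c / 2) * Polynomial.X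
      - Polynomial.C (t / 3) := by
  let b : Basis (Fin 3) ℝ (TangentSpace 𝓘(ℝ, E3) q) :=
    (EuclideanSpace.basisFun (Fin 3) ℝ).toBasis
  rw [← LinearMap.charpoly_toMatrix A b, charpoly_three]
  rw [← LinearMap.toMatrix_mul, ← LinearMap.toMatrix_mul, ← LinearMap.trace_eq_matrix_trace,
    ← LinearMap.trace_eq_matrix_trace, ← LinearMap.trace_eq_matrix_trace, h1, h2, h3]
  have e1 : ((0 : ℝ) ^ 2 - c) / 2 = - (c / 2) := by ring
  have e2 : ((0 : ℝ) ^ 3 - 3 * 0 * c + 2 * t) / 6 = t / 3 := by ring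
  rw [e1, e2, Polynomial.C_neg, Polynomial.C_0]
  ring

theorem local_const {F ν : M → E5} {V : Set M} (hF : IsHypersurface E3 F) (hmin : IsMinimal E3 F)
    {c : ℝ} (hc : HasConstantSigma E3 F c) (hν : IsUnitNormal E3 F V ν) {q : M} (hq : q ∈ V) :
    ∃ d : ℝ, ∀ᶠ y in 𝓝 q, ∀ A, IsShapeOperator E3 F ν y A →
      LinearMap.trace ℝ (TangentSpace 𝓘(ℝ, E3) y) (A * A * A) = d := by
  have h1 : (extChartAt 𝓘(ℝ, E3) q).symm (extChartAt 𝓘(ℝ, E3) q q) = q :=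
    extChartAt_to_inv q
  have h2 : extChartAt 𝓘(ℝ, E3) q q ∈ tgt q V := by
    refine ⟨mem_extChartAt_target q, ?_⟩
    rw [Set.mem_preimage, h1]; exact hq
  obtain ⟨r, hr, hball⟩ := Metric.isOpen_iff.1 (isOpen_tgt q hν.isOpen) _ h2
  have hex : ∀ x, ∃ A : TangentSpace 𝓘(ℝ, E3) ((extChartAt 𝓘(ℝ, E3) q).symm x) →ₗ[ℝ]
      TangentSpace 𝓘(ℝ, E3) ((extChartAt 𝓘(ℝ, E3) q).symm x), x ∈ tgt q V →
      IsShapeOperator E3 F ν ((extChartAt 𝓘(ℝ, E3) q).symm x) A := by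
    intro x
    by_cases hx : x ∈ tgt q V
    · obtain ⟨A, hA⟩ := exists_shape_patch hF hν q hx
      exact ⟨A, fun _ => hA⟩
    · exact ⟨0, fun h => absurd h hx⟩
  choose A hA using hex
  obtain ⟨d, hd⟩ := Bry.main (Metric.ball (extChartAt 𝓘(ℝ, E3) q q) r)
    (F ∘ (extChartAt 𝓘(ℝ, E3) q).symm) (ν ∘ (extChartAt 𝓘(ℝ, E3) q).symm)
    (fun x => (gram (fderiv ℝ (F ∘ (extChartAt 𝓘(ℝ, E3) q).symm) x))⁻¹ *
      sff (fderiv ℝ (F ∘ (extChartAt 𝓘(ℝ, E3) q).symm) x)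
        (fderiv ℝ (ν ∘ (extChartAt 𝓘(ℝ, E3) q).symm) x))
    Metric.isOpen_ball (Metric.isConnected_ball hr)
    ((smooth_comp q (hF.smooth.contMDiffOn (s := V))).mono hball)
    ((smooth_comp q hν.smooth).mono hball)
    (fun x hx => inj_patch hF q (hball hx).1)
    (fun x _ => hF.norm_eq _)
    (fun x hx => ⟨hν.norm_eq _ (hball hx).2, hν.orth _ (hball hx).2,
      fun i => normal_patch hF hν q (hball hx) _⟩)
    (fun x _ => rfl)
    (fun x hx => by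
      rw [(traces_patch hF hν q (hball hx) (hA x (hball hx)) _ rfl).1]
      exact hmin V ν hν _ (hball hx).2 _ (hA x (hball hx)))
    c
    (fun x hx => by
      rw [(traces_patch hF hν q (hball hx) (hA x (hball hx)) _ rfl).2.1]
      exact hc V ν hν _ (hball hx).2 _ (hA x (hball hx)))
  refine ⟨d, ?_⟩
  have hcont : ContinuousAt (extChartAt 𝓘(ℝ, E3) q) q := continuousAt_extChartAt q
  filter_upwards [hcont.preimage_mem_nhds (Metric.ball_mem_nhds _ hr),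
    extChartAt_source_mem_nhds (I := 𝓘(ℝ, E3)) q] with y hy hys
  have hy' : extChartAt 𝓘(ℝ, E3) q y ∈ Metric.ball (extChartAt 𝓘(ℝ, E3) q q) r := hy
  have h3 : (extChartAt 𝓘(ℝ, E3) q).symm (extChartAt 𝓘(ℝ, E3) q y) = y :=
    (extChartAt 𝓘(ℝ, E3) q).left_inv hys
  have h4 : ∀ B : TangentSpace 𝓘(ℝ, E3)
      ((extChartAt 𝓘(ℝ, E3) q).symm (extChartAt 𝓘(ℝ, E3) q y)) →ₗ[ℝ]
      TangentSpace 𝓘(ℝ, E3) ((extChartAt 𝓘(ℝ, E3) q).symm (extChartAt 𝓘(ℝ, E3) q y)),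
      IsShapeOperator E3 F ν ((extChartAt 𝓘(ℝ, E3) q).symm (extChartAt 𝓘(ℝ, E3) q y)) B →
      LinearMap.trace ℝ _ (B * B * B) = d := by
    intro B hB
    rw [← (traces_patch hF hν q (hball hy') hB _ rfl).2.2.1]
    exact hd _ hy'
  rw [h3] at h4
  exact h4

theorem exists_normal {F : M → E5} (hF : IsHypersurface E3 F) (q : M) :
    ∃ (V : Set M) (ν : M → E5), IsUnitNormal E3 F V ν ∧ q ∈ V := by
  have huniv := smooth_comp q (hF.smooth.contMDiffOn (s := Set.univ))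
  have htgt : tgt q Set.univ = (extChartAt 𝓘(ℝ, E3) q).target := by
    simp [tgt]
  rw [htgt] at huniv
  obtain ⟨C, n, hC, hqC, hCt, hn, hprop⟩ := exists_local_normal
    (isOpen_extChartAt_target (I := 𝓘(ℝ, E3)) q) huniv
    (fun x hx => inj_patch hF q hx) (fun x _ => hF.norm_eq _) (mem_extChartAt_target q)
  set V : Set M := (extChartAt 𝓘(ℝ, E3) q).source ∩ extChartAt 𝓘(ℝ, E3) q ⁻¹' C with hV
  refine ⟨V, n ∘ extChartAt 𝓘(ℝ, E3) q, ⟨?_, ?_, ?_, ?_, ?_⟩, ⟨mem_extChartAt_source q, hqC⟩⟩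
  · exact (continuousOn_extChartAt q).isOpen_inter_preimage (isOpen_extChartAt_source q) hC
  · refine ContMDiffOn.comp (contMDiffOn_iff_contDiffOn.2 hn)
      (contMDiffOn_extChartAt.mono ?_) (fun y hy => hy.2)
    rintro y ⟨hy, -⟩
    rwa [extChartAt_source] at hy
  · rintro y ⟨_, hy⟩
    exact (hprop _ hy).1
  · rintro y ⟨hys, hy⟩
    have h1 := (hprop _ hy).2.1
    rw [Function.comp_apply, (extChartAt 𝓘(ℝ, E3) q).left_inv hys] at h1
    exact h1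
  · rintro y ⟨hys, hy⟩
    have h3 : (extChartAt 𝓘(ℝ, E3) q).symm (extChartAt 𝓘(ℝ, E3) q y) = y :=
      (extChartAt 𝓘(ℝ, E3) q).left_inv hys
    have h4 : ∀ v : TangentSpace 𝓘(ℝ, E3)
        ((extChartAt 𝓘(ℝ, E3) q).symm (extChartAt 𝓘(ℝ, E3) q y)),
        @inner ℝ E5 _ (mfderiv 𝓘(ℝ, E3) 𝓘(ℝ, E5) F
          ((extChartAt 𝓘(ℝ, E3) q).symm (extChartAt 𝓘(ℝ, E3) q y)) v)
          (n (extChartAt 𝓘(ℝ, E3) q y)) = 0 := by
      intro v
      obtain ⟨D, hD⟩ := bridge q (hCt hy)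
      have h5 := (hprop _ hy).2.2 (D.symm v)
      rw [(hD F (hF.smooth.mdifferentiableAt (by simp))).2, D.apply_symm_apply] at h5
      exact h5
    rw [h3] at h4
    exact h4

/-- The set of pairs `(p, p')` of points at which `tr A³` agrees up to sign. -/
theorem sq_const [ConnectedSpace M] {F : M → E5} (hF : IsHypersurface E3 F) (hmin : IsMinimal E3 F)
    {c : ℝ} (hc : HasConstantSigma E3 F c) :
    ∃ t : ℝ, ∀ (V : Set M) (ν : M → E5), IsUnitNormal E3 F V ν → ∀ q ∈ V,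
      ∀ A, IsShapeOperator E3 F ν q A →
        LinearMap.trace ℝ (TangentSpace 𝓘(ℝ, E3) q) (A * A * A) = t ∨
        LinearMap.trace ℝ (TangentSpace 𝓘(ℝ, E3) q) (A * A * A) = -t := by
  -- the relation
  let R : M → M → Prop := fun x y => ∀ (V : Set M) (ν : M → E5), IsUnitNormal E3 F V ν → x ∈ V →
    ∀ A, IsShapeOperator E3 F ν x A → ∀ (V' : Set M) (ν' : M → E5), IsUnitNormal E3 F V' ν' → y ∈ V' →
    ∀ B, IsShapeOperator E3 F ν' y B →
      LinearMap.trace ℝ (TangentSpace 𝓘(ℝ, E3) x) (A * A * A) =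
        LinearMap.trace ℝ (TangentSpace 𝓘(ℝ, E3) y) (B * B * B) ∨
      LinearMap.trace ℝ (TangentSpace 𝓘(ℝ, E3) x) (A * A * A) =
        -LinearMap.trace ℝ (TangentSpace 𝓘(ℝ, E3) y) (B * B * B)
  have hneg : ∀ {x : M} {V V' : Set M} {ν ν' : M → E5} (hν : IsUnitNormal E3 F V ν)
      (hν' : IsUnitNormal E3 F V' ν') (hx : x ∈ V) (hx' : x ∈ V')
      {A B : TangentSpace 𝓘(ℝ, E3) x →ₗ[ℝ] TangentSpace 𝓘(ℝ, E3) x}
      (hA : IsShapeOperator E3 F ν x A) (hB : IsShapeOperator E3 F ν' x B),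
      LinearMap.trace ℝ (TangentSpace 𝓘(ℝ, E3) x) (A * A * A) =
        LinearMap.trace ℝ (TangentSpace 𝓘(ℝ, E3) x) (B * B * B) ∨
      LinearMap.trace ℝ (TangentSpace 𝓘(ℝ, E3) x) (A * A * A) =
        -LinearMap.trace ℝ (TangentSpace 𝓘(ℝ, E3) x) (B * B * B) := by
    intro x V V' ν ν' hν hν' hx hx' A B hA hB
    rcases shape_sign hF hν hν' hx hx' hA hB with h | h
    · left; rw [h]
    · right
      have : B * B * B = -(A * A * A) := by rw [h]; noncomm_ring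
      rw [this, map_neg, neg_neg]
  have hR : ∀ x y : M, R x y := by
    intro x y
    refine IsPreconnected.induction₂ isPreconnected_univ R ?_ ?_ ?_ (Set.mem_univ x)
      (Set.mem_univ y)
    · intro x _
      rw [nhdsWithin_univ]
      obtain ⟨V₀, ν₀, hν₀, hx₀⟩ := exists_normal hF x
      obtain ⟨d, hd⟩ := local_const hF hmin hc hν₀ hx₀
      obtain ⟨A₀, hA₀⟩ := exists_shape hF hν₀ hx₀
      have hd0 := hd.self_of_nhds A₀ hA₀
      filter_upwards [hd, hν₀.isOpen.mem_nhds hx₀] with y hy hyV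
      intro V ν hν hxV A hA V' ν' hν' hyV' B hB
      obtain ⟨B₀, hB₀⟩ := exists_shape hF hν₀ hyV
      have h1 := hneg hν hν₀ hxV hx₀ hA hA₀
      have h2 := hneg hν' hν₀ hyV' hyV hB hB₀
      have h3 := hy B₀ hB₀
      rw [hd0] at h1
      rw [h3] at h2
      rcases h1 with h1 | h1 <;> rcases h2 with h2 | h2
      · left; rw [h1, h2]
      · right; rw [h1, h2, neg_neg]
      · right; rw [h1, h2]
      · left; rw [h1, h2]
    · intro x y z _ _ _ hxy hyz V ν hν hxV A hA V' ν' hν' hzV' B hB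
      obtain ⟨V₀, ν₀, hν₀, hy₀⟩ := exists_normal hF y
      obtain ⟨A₀, hA₀⟩ := exists_shape hF hν₀ hy₀
      rcases hxy V ν hν hxV A hA V₀ ν₀ hν₀ hy₀ A₀ hA₀ with h1 | h1 <;>
        rcases hyz V₀ ν₀ hν₀ hy₀ A₀ hA₀ V' ν' hν' hzV' B hB with h2 | h2
      · left; rw [h1, h2]
      · right; rw [h1, h2]
      · right; rw [h1, h2]
      · left; rw [h1, h2, neg_neg]
    · intro x y _ _ hxy V ν hν hxV A hA V' ν' hν' hyV' B hB
      rcases hxy V' ν' hν' hyV' B hB V ν hν hxV A hA with h | h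
      · left; rw [h]
      · right; rw [h, neg_neg]
  obtain ⟨p⟩ := (inferInstance : Nonempty M)
  obtain ⟨V₀, ν₀, hν₀, hp₀⟩ := exists_normal hF p
  obtain ⟨A₀, hA₀⟩ := exists_shape hF hν₀ hp₀
  exact ⟨_, fun V ν hν q hq A hA => hR q p V ν hν hq A hA V₀ ν₀ hν₀ hp₀ A₀ hA₀⟩

/-- constancy of `tr A³` on a preconnected set -/
theorem const_on {F ν : M → E5} {V : Set M} (hF : IsHypersurface E3 F) (hmin : IsMinimal E3 F)
    {c : ℝ} (hc : HasConstantSigma E3 F c) (hν : IsUnitNormal E3 F V ν) (hV : IsPreconnected V)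
    {x y : M} (hx : x ∈ V) (hy : y ∈ V)
    {A : TangentSpace 𝓘(ℝ, E3) x →ₗ[ℝ] TangentSpace 𝓘(ℝ, E3) x}
    {B : TangentSpace 𝓘(ℝ, E3) y →ₗ[ℝ] TangentSpace 𝓘(ℝ, E3) y}
    (hA : IsShapeOperator E3 F ν x A) (hB : IsShapeOperator E3 F ν y B) :
    LinearMap.trace ℝ (TangentSpace 𝓘(ℝ, E3) x) (A * A * A) =
      LinearMap.trace ℝ (TangentSpace 𝓘(ℝ, E3) y) (B * B * B) := by
  let R : M → M → Prop := fun x y => ∀ A, IsShapeOperator E3 F ν x A → ∀ B, IsShapeOperator E3 F ν y B →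
      LinearMap.trace ℝ (TangentSpace 𝓘(ℝ, E3) x) (A * A * A) =
        LinearMap.trace ℝ (TangentSpace 𝓘(ℝ, E3) y) (B * B * B)
  have hR : R x y := by
    refine IsPreconnected.induction₂ hV R ?_ ?_ ?_ hx hy
    · intro x hx
      obtain ⟨d, hd⟩ := local_const hF hmin hc hν hx
      refine nhdsWithin_le_nhds ?_
      have hd0 := hd.self_of_nhds
      filter_upwards [hd] with y hy A hA B hB
      rw [hd0 A hA, hy B hB]
    · intro x y z _ hy _ hxy hyz A hA B hB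
      obtain ⟨A₀, hA₀⟩ := exists_shape hF hν hy
      rw [hxy A hA A₀ hA₀, hyz A₀ hA₀ B hB]
    · intro x y _ _ hxy A hA B hB
      exact (hxy B hB A hA).symm
  exact hR A hA B hB

/-- The principal curvatures are constant. -/
theorem main [ConnectedSpace M] {F : M → E5} (hF : IsHypersurface E3 F) (hmin : IsMinimal E3 F)
    {c : ℝ} (hc : HasConstantSigma E3 F c) : IsIsoparametric E3 F := by
  obtain ⟨t, ht⟩ := sq_const hF hmin hc
  obtain ⟨p⟩ := (inferInstance : Nonempty M)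
  obtain ⟨V₀, ν₀, hν₀, hp₀⟩ := exists_normal hF p
  obtain ⟨A₀, hA₀⟩ := exists_shape hF hν₀ hp₀
  -- the three roots
  have hs := splits_shape hF hν₀ hp₀ A₀ hA₀
  have hdeg : A₀.charpoly.natDegree = 3 := by
    rw [LinearMap.charpoly_natDegree]
    exact (finrank_euclideanSpace (ι := Fin 3) (𝕜 := ℝ)).trans (Fintype.card_fin 3)
  have hcard : Multiset.card A₀.charpoly.roots = 3 := by
    exact hs.natDegree_eq_card_roots.symm.trans hdeg
  obtain ⟨a, b, d, habd⟩ := Multiset.card_eq_three.1 hcard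
  have hprod : A₀.charpoly = ∏ i, (Polynomial.X - Polynomial.C ((![a, b, d] : Fin 3 → ℝ) i)) := by
    have h1 := hs.eq_prod_roots_of_monic (LinearMap.charpoly_monic A₀)
    rw [habd] at h1
    rw [h1, Fin.prod_univ_three]
    simp [mul_assoc]
  have hcp : ∀ (V : Set M) (ν : M → E5), IsUnitNormal E3 F V ν → ∀ q ∈ V, ∀ A,
      IsShapeOperator E3 F ν q A → ∀ t : ℝ,
      LinearMap.trace ℝ (TangentSpace 𝓘(ℝ, E3) q) (A * A * A) = t →
      A.charpoly = Polynomial.X ^ 3 - Polynomial.C (c / 2) * Polynomial.X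
        - Polynomial.C (t / 3) := by
    intro V ν hν q hq A hA t h
    exact charpoly_shape A c t (hmin V ν hν q hq A hA) (hc V ν hν q hq A hA) h
  obtain ⟨t₀, ht₀⟩ : ∃ t₀, LinearMap.trace ℝ (TangentSpace 𝓘(ℝ, E3) p) (A₀ * A₀ * A₀) = t₀ :=
    ⟨_, rfl⟩
  have hP : ∏ i, (Polynomial.X - Polynomial.C ((![a, b, d] : Fin 3 → ℝ) i))
      = Polynomial.X ^ 3 - Polynomial.C (c / 2) * Polynomial.X - Polynomial.C (t₀ / 3) := by
    rw [← hprod]; exact hcp V₀ ν₀ hν₀ p hp₀ A₀ hA₀ t₀ ht₀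
  have hP' : ∏ i, (Polynomial.X - Polynomial.C (-((![a, b, d] : Fin 3 → ℝ) i)))
      = Polynomial.X ^ 3 - Polynomial.C (c / 2) * Polynomial.X - Polynomial.C ((-t₀) / 3) := by
    have h1 := congrArg (fun P : Polynomial ℝ => -(P.comp (-Polynomial.X))) hP
    simp only [Polynomial.sub_comp, Polynomial.mul_comp, Polynomial.pow_comp,
      Polynomial.X_comp, Polynomial.C_comp, Polynomial.prod_comp] at h1
    rw [neg_div, Polynomial.C_neg]
    rw [Fin.prod_univ_three] at h1 ⊢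
    simp only [Polynomial.C_neg]
    linear_combination h1
  have ht1 : t₀ = t ∨ t₀ = -t := by
    rw [← ht₀]; exact ht V₀ ν₀ hν₀ p hp₀ A₀ hA₀
  refine ⟨![a, b, d], fun V ν hν hV => ?_⟩
  rcases V.eq_empty_or_nonempty with hVe | ⟨q₁, hq₁⟩
  · subst hVe
    exact ⟨1, Or.inl rfl, fun q hq => absurd hq (Set.notMem_empty q)⟩
  obtain ⟨A₁, hA₁⟩ := exists_shape hF hν hq₁
  obtain ⟨t₁, ht₁⟩ : ∃ t₁, LinearMap.trace ℝ (TangentSpace 𝓘(ℝ, E3) q₁) (A₁ * A₁ * A₁) = t₁ :=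
    ⟨_, rfl⟩
  have ht2 : t₁ = t ∨ t₁ = -t := by
    rw [← ht₁]; exact ht V ν hν q₁ hq₁ A₁ hA₁
  have hall : ∀ q ∈ V, ∀ A, IsShapeOperator E3 F ν q A →
      A.charpoly = Polynomial.X ^ 3 - Polynomial.C (c / 2) * Polynomial.X
        - Polynomial.C (t₁ / 3) := by
    intro q hq A hA
    refine hcp V ν hν q hq A hA t₁ ?_
    rw [← ht₁]
    exact const_on hF hmin hc hν hV hq hq₁ hA hA₁
  have ht3 : t₁ = t₀ ∨ t₁ = -t₀ := by
    rcases ht1 with h | h <;> rcases ht2 with h' | h' <;> rw [h, h']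
    · left; rfl
    · right; rfl
    · right; rw [neg_neg]
    · left; rfl
  rcases ht3 with h | h
  · refine ⟨1, Or.inl rfl, fun q hq A hA => ?_⟩
    rw [hall q hq A hA, h, ← hP]
    simp only [one_mul]
  · refine ⟨-1, Or.inr rfl, fun q hq A hA => ?_⟩
    rw [hall q hq A hA, h, ← hP']
    simp only [neg_mul, one_mul]

end Bry.Mfd
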