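import Pool.Agent.Lib.MP_2b07f9_gt.Mfd.Chart

/-! The shape operator in coordinates. -/

set_option autoImplicit false

open scoped Manifold ContDiff
open Module

namespace Bry.Mfd

/-- Gram matrix -/
noncomputable def gram (L : E3 →L[ℝ] E5) : Matrix (Fin 3) (Fin 3) ℝ :=
  Matrix.of fun (i : Fin 3) (j : Fin 3) =>
    inner ℝ (L (EuclideanSpace.single i (1 : ℝ))) (L (EuclideanSpace.single j (1 : ℝ)))

/-- second fundamental form matrix -/
noncomputable def sff (L N : E3 →L[ℝ] E5) : Matrix (Fin 3) (Fin 3) ℝ :=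
  Matrix.of fun (i : Fin 3) (j : Fin 3) =>
    -inner ℝ (L (EuclideanSpace.single i (1 : ℝ))) (N (EuclideanSpace.single j (1 : ℝ)))

theorem sum_single (w : E3) : w = ∑ i, w i • EuclideanSpace.single i (1 : ℝ) := by
  ext j
  simp [Finset.sum_apply, Pi.single_apply]

theorem gram_det_ne_zero (L : E3 →L[ℝ] E5) (hL : Function.Injective L) : (gram L).det ≠ 0 := by
  intro h0
  obtain ⟨v, hv0, hv⟩ := Matrix.exists_mulVec_eq_zero_iff.2 h0
  let w : E3 := WithLp.toLp 2 v
  have h1 : ∀ i : Fin 3, inner ℝ (L (EuclideanSpace.single i (1 : ℝ))) (L w) = (0 : ℝ) := by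
    intro i
    have h2 : (gram L).mulVec v i = 0 := congrFun hv i
    rw [← h2, sum_single w, map_sum, inner_sum, Matrix.mulVec, dotProduct]
    refine Finset.sum_congr rfl fun j _ => ?_
    rw [map_smul, inner_smul_right, gram, Matrix.of_apply]
    simp [w, mul_comm]
  have h2 : inner ℝ (L w) (L w) = (0 : ℝ) := inner_of_single L (L w) h1 w
  have h3 : L w = 0 := inner_self_eq_zero.1 h2
  have h4 : w = 0 := hL (by rw [h3, map_zero])
  apply hv0
  have := congrArg WithLp.ofLp h4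
  simpa [w] using this

theorem gram_mul (L N : E3 →L[ℝ] E5) (T : E3 →ₗ[ℝ] E3) (hT : ∀ w, L (T w) = - N w) :
    gram L * LinearMap.toMatrix (EuclideanSpace.basisFun (Fin 3) ℝ).toBasis
      (EuclideanSpace.basisFun (Fin 3) ℝ).toBasis T = sff L N := by
  ext i j
  rw [Matrix.mul_apply, sff, Matrix.of_apply, ← inner_neg_right, ← hT,
    sum_single (T (EuclideanSpace.single j 1)), map_sum, inner_sum]
  refine Finset.sum_congr rfl fun k _ => ?_
  rw [gram, Matrix.of_apply, map_smul, inner_smul_right, LinearMap.toMatrix_apply]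
  simp [mul_comm]

theorem toMatrix_eq (L N : E3 →L[ℝ] E5) (hL : Function.Injective L) (T : E3 →ₗ[ℝ] E3)
    (hT : ∀ w, L (T w) = - N w) :
    (gram L)⁻¹ * sff L N = LinearMap.toMatrix (EuclideanSpace.basisFun (Fin 3) ℝ).toBasis
      (EuclideanSpace.basisFun (Fin 3) ℝ).toBasis T := by
  rw [← gram_mul L N T hT, ← Matrix.mul_assoc, Matrix.nonsing_inv_mul _
    (isUnit_iff_ne_zero.2 (gram_det_ne_zero L hL)), Matrix.one_mul]

/-- traces and characteristic polynomial of the coordinate matrix -/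
theorem coord_traces (L N : E3 →L[ℝ] E5) (hL : Function.Injective L) {W : Type*}
    [AddCommGroup W] [Module ℝ W] [Module.Finite ℝ W] (D : E3 ≃ₗ[ℝ] W) (A : W →ₗ[ℝ] W)
    (hA : ∀ w, L (D.symm (A (D w))) = - N w) :
    ((gram L)⁻¹ * sff L N).trace = LinearMap.trace ℝ W A ∧
    (((gram L)⁻¹ * sff L N) * ((gram L)⁻¹ * sff L N)).trace = LinearMap.trace ℝ W (A * A) ∧
    (((gram L)⁻¹ * sff L N) * ((gram L)⁻¹ * sff L N) * ((gram L)⁻¹ * sff L N)).trace
      = LinearMap.trace ℝ W (A * A * A) ∧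
    ((gram L)⁻¹ * sff L N).charpoly = A.charpoly := by
  set T : E3 →ₗ[ℝ] E3 := D.symm.conj A with hT
  have hTw : ∀ w, L (T w) = - N w := by
    intro w
    rw [hT, LinearEquiv.conj_apply_apply]
    exact hA w
  have hS := toMatrix_eq L N hL T hTw
  have hmul : ∀ X Y : W →ₗ[ℝ] W, D.symm.conj (X * Y) = D.symm.conj X * D.symm.conj Y := by
    intro X Y
    exact LinearEquiv.conj_comp _ _ _
  have e1 : ∀ X : W →ₗ[ℝ] W, LinearMap.trace ℝ E3 (D.symm.conj X) = LinearMap.trace ℝ W X :=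
    fun X => LinearMap.trace_conj' X D.symm
  refine ⟨?_, ?_, ?_, ?_⟩
  · rw [hS, ← LinearMap.trace_eq_matrix_trace, hT, e1]
  · rw [hS, ← LinearMap.toMatrix_mul, ← LinearMap.trace_eq_matrix_trace, hT, ← hmul, e1]
  · rw [hS, ← LinearMap.toMatrix_mul, ← LinearMap.toMatrix_mul,
      ← LinearMap.trace_eq_matrix_trace, hT, ← hmul, ← hmul, e1]
  · rw [hS, LinearMap.charpoly_toMatrix, hT, LinearEquiv.charpoly_conj]

end Bry.Mfd
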