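import Pool.Agent.Lib.MP_2b07f9_gt.Mfd.Loc

/-! Existence of local unit normals in Euclidean patches. -/

set_option autoImplicit false

open scoped Manifold ContDiff
open Module

namespace Bry.Mfd

theorem contDiffOn_det {B : Set E3} {A : E3 → Matrix (Fin 5) (Fin 5) ℝ}
    (hA : ∀ i j, ContDiffOn ℝ ∞ (fun x => A x i j) B) :
    ContDiffOn ℝ ∞ (fun x => (A x).det) B := by
  simp only [Matrix.det_apply]
  refine ContDiffOn.sum fun σ _ => ?_
  have h : ContDiffOn ℝ ∞ (fun x => ∏ i, A x (σ i) i) B := contDiffOn_prod fun i _ => hA _ _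
  simpa using h.const_smul (Equiv.Perm.sign σ : ℤˣ)

theorem contDiffOn_adj {B : Set E3} {A : E3 → Matrix (Fin 5) (Fin 5) ℝ}
    (hA : ∀ i j, ContDiffOn ℝ ∞ (fun x => A x i j) B) (i j : Fin 5) :
    ContDiffOn ℝ ∞ (fun x => (A x).adjugate i j) B := by
  simp only [Matrix.adjugate_apply]
  refine contDiffOn_det fun k l => ?_
  by_cases h : k = j
  · subst h
    simp only [Matrix.updateRow_self]
    exact contDiffOn_const
  · simp only [Matrix.updateRow_ne h]
    exact hA k l

/-- there is a unit vector orthogonal to `a` and to the image of `L` -/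
theorem exists_unit_normal (L : E3 →ₗ[ℝ] E5) (a : E5) :
    ∃ n : E5, ‖n‖ = 1 ∧ inner ℝ a n = (0 : ℝ) ∧ ∀ w, inner ℝ (L w) n = (0 : ℝ) := by
  let Ψ : E5 →ₗ[ℝ] (ℝ × (Fin 3 → ℝ)) :=
    (innerₛₗ ℝ a).prod (LinearMap.pi fun i => innerₛₗ ℝ (L (EuclideanSpace.single i (1 : ℝ))))
  have hk : ∃ v : E5, v ≠ 0 ∧ Ψ v = 0 := by
    by_contra hcon
    push Not at hcon
    have hinj : Function.Injective Ψ := by
      rw [injective_iff_map_eq_zero]
      intro v hv
      by_contra hv0
      exact hcon v hv0 hv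
    have := LinearMap.finrank_le_finrank_of_injective hinj
    simp [Module.finrank_prod] at this
  obtain ⟨v, hv0, hv⟩ := hk
  have h1 : inner ℝ a v = (0 : ℝ) := by
    have := congrArg Prod.fst hv
    simpa [Ψ] using this
  have h2 : ∀ i, inner ℝ (L (EuclideanSpace.single i (1 : ℝ))) v = (0 : ℝ) := by
    intro i
    have := congrFun (congrArg Prod.snd hv) i
    simpa [Ψ] using this
  have h3 : ∀ w, inner ℝ (L w) v = (0 : ℝ) := by
    intro w
    have hw : w = ∑ i, w i • EuclideanSpace.single i (1 : ℝ) := by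
      ext j
      simp [Finset.sum_apply, Pi.single_apply]
    rw [hw, map_sum, sum_inner]
    refine Finset.sum_eq_zero fun i _ => ?_
    rw [map_smul, inner_smul_left, h2, mul_zero]
  refine ⟨‖v‖⁻¹ • v, ?_, ?_, ?_⟩
  · rw [norm_smul, norm_inv, norm_norm]
    exact inv_mul_cancel₀ (norm_ne_zero_iff.2 hv0)
  · rw [inner_smul_right, h1, mul_zero]
  · intro w
    rw [inner_smul_right, h3, mul_zero]

/-- linearity: orthogonality on the standard basis is enough -/
theorem inner_of_single (L : E3 →L[ℝ] E5) (n : E5)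
    (h : ∀ i : Fin 3, inner ℝ (L (EuclideanSpace.single i (1 : ℝ))) n = (0 : ℝ)) (w : E3) :
    inner ℝ (L w) n = (0 : ℝ) := by
  have hw : w = ∑ i, w i • EuclideanSpace.single i (1 : ℝ) := by
    ext j
    simp [Finset.sum_apply, Pi.single_apply]
  rw [hw, map_sum, sum_inner]
  refine Finset.sum_eq_zero fun i _ => ?_
  rw [map_smul, inner_smul_left, h, mul_zero]

theorem inner_deriv_eq_zero {B : Set E3} (hB : IsOpen B) {f g : E3 → E5}
    (hf : ∀ x ∈ B, DifferentiableAt ℝ f x) (hg : ∀ x ∈ B, DifferentiableAt ℝ g x) (c : ℝ)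
    (h : ∀ x ∈ B, inner ℝ (f x) (g x) = c) {x : E3} (hx : x ∈ B) (w : E3) :
    inner ℝ (f x) (fderiv ℝ g x w) + inner ℝ (fderiv ℝ f x w) (g x) = 0 := by
  have h1 := fderiv_inner_apply ℝ (hf x hx) (hg x hx) w
  have h2 : (fun t => (inner ℝ (f t) (g t) : ℝ)) =ᶠ[nhds x] fun _ => c := by
    filter_upwards [hB.mem_nhds hx] with t ht using h t ht
  rw [h2.fderiv_eq] at h1
  simpa using h1.symm

theorem exists_local_normal {B : Set E3} (hB : IsOpen B) {f : E3 → E5}
    (hf : ContDiffOn ℝ ∞ f B) (hinj : ∀ x ∈ B, Function.Injective (fderiv ℝ f x))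
    (hf1 : ∀ x ∈ B, ‖f x‖ = 1) {x₀ : E3} (hx₀ : x₀ ∈ B) :
    ∃ (C : Set E3) (ν : E3 → E5), IsOpen C ∧ x₀ ∈ C ∧ C ⊆ B ∧ ContDiffOn ℝ ∞ ν C ∧
      (∀ x ∈ C, ‖ν x‖ = 1 ∧ inner ℝ (f x) (ν x) = (0 : ℝ) ∧
        ∀ w, inner ℝ (fderiv ℝ f x w) (ν x) = (0 : ℝ)) := by
  classical
  have hfd : ∀ x ∈ B, DifferentiableAt ℝ f x := fun x hx =>
    (hf.differentiableOn (by simp)).differentiableAt (hB.mem_nhds hx)
  have hff : ∀ x ∈ B, ∀ w, inner ℝ (fderiv ℝ f x w) (f x) = (0 : ℝ) := by
    intro x hx w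
    have := inner_deriv_eq_zero hB hfd hfd 1 (fun y hy => by
      rw [real_inner_self_eq_norm_sq, hf1 y hy]; norm_num) hx w
    rw [real_inner_comm (fderiv ℝ f x w) (f x)] at this
    linarith
  obtain ⟨n, hn1, hn2, hn3⟩ := exists_unit_normal (fderiv ℝ f x₀ : E3 →ₗ[ℝ] E5) (f x₀)
  -- the five rows
  let r : E3 → Fin 5 → E5 := fun x =>
    ![f x, fderiv ℝ f x (EuclideanSpace.single 0 1), fderiv ℝ f x (EuclideanSpace.single 1 1),
      fderiv ℝ f x (EuclideanSpace.single 2 1), n]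
  let A : E3 → Matrix (Fin 5) (Fin 5) ℝ := fun x => Matrix.of fun i j => r x i j
  have hfds : ∀ w : E3, ContDiffOn ℝ ∞ (fun x => fderiv ℝ f x w) B := fun w =>
    (hf.fderiv_of_isOpen hB (m := ∞) (by simp)).clm_apply contDiffOn_const
  have hr : ∀ i, ContDiffOn ℝ ∞ (fun x => r x i) B := by
    intro i
    fin_cases i
    · exact hf
    · exact hfds _
    · exact hfds _
    · exact hfds _
    · exact contDiffOn_const
  have hA : ∀ i j, ContDiffOn ℝ ∞ (fun x => A x i j) B := by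
    intro i j
    exact contDiffOn_euclidean.1 (hr i) j
  let N : E3 → E5 := fun x => WithLp.toLp 2 fun k => (A x).adjugate k 4
  have hN : ContDiffOn ℝ ∞ N B := by
    rw [contDiffOn_euclidean]
    intro i
    exact contDiffOn_adj hA i 4
  have hin : ∀ x i, inner ℝ (r x i) (N x) = (if i = 4 then (A x).det else 0 : ℝ) := by
    intro x i
    have h1 : (A x * (A x).adjugate) i 4 = ((A x).det • (1 : Matrix (Fin 5) (Fin 5) ℝ)) i 4 := by
      rw [Matrix.mul_adjugate]
    rw [Matrix.mul_apply] at h1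
    rw [Matrix.smul_apply, Matrix.one_apply, smul_eq_mul, mul_ite, mul_one, mul_zero] at h1
    rw [← h1, PiLp.inner_apply]
    refine Finset.sum_congr rfl fun k _ => ?_
    simp [N, A, mul_comm]
  have hdet : ContDiffOn ℝ ∞ (fun x => (A x).det) B := contDiffOn_det hA
  -- non degeneracy at x₀
  have hd0 : (A x₀).det ≠ 0 := by
    intro h0
    obtain ⟨v, hv0, hv⟩ := Matrix.exists_mulVec_eq_zero_iff.2 h0
    have hv' : ∀ i, inner ℝ (r x₀ i) (WithLp.toLp 2 v : E5) = (0 : ℝ) := by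
      intro i
      have this : (A x₀).mulVec v i = 0 := congrFun hv i
      rw [PiLp.inner_apply, ← this, Matrix.mulVec, dotProduct]
      refine Finset.sum_congr rfl fun k _ => ?_
      simp [A, mul_comm]
    have h1 := eq_smul_normal (fderiv ℝ f x₀ : E3 →ₗ[ℝ] E5) (hinj x₀ hx₀) (f x₀) n
      (hf1 x₀ hx₀) hn1 hn2 (fun w => hff x₀ hx₀ w) hn3 (WithLp.toLp 2 v)
      (by rw [real_inner_comm]; exact hv' 0)
      (fun w => inner_of_single _ _ (fun i => by
        fin_cases i
        · exact hv' 1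
        · exact hv' 2
        · exact hv' 3) w)
    have h4 := hv' 4
    have h5 : inner ℝ (WithLp.toLp 2 v : E5) n = (0 : ℝ) := by
      rw [real_inner_comm]; exact h4
    rw [h5, zero_smul] at h1
    apply hv0
    have := congrArg (WithLp.ofLp) h1
    simpa using this
  refine ⟨B ∩ {x | (A x).det ≠ 0}, fun x => ‖N x‖⁻¹ • N x, ?_, ⟨hx₀, hd0⟩,
    Set.inter_subset_left, ?_, ?_⟩
  · exact hdet.continuousOn.isOpen_inter_preimage hB isOpen_ne
  · have hN0 : ∀ x ∈ B ∩ {x | (A x).det ≠ 0}, N x ≠ 0 := by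
      rintro x ⟨_, hx⟩ h
      apply hx
      have := hin x 4
      rw [h, inner_zero_right] at this
      simpa using this.symm
    have h1 : ContDiffOn ℝ ∞ N (B ∩ {x | (A x).det ≠ 0}) := hN.mono Set.inter_subset_left
    exact ((h1.norm ℝ hN0).inv fun x hx => norm_ne_zero_iff.2 (hN0 x hx)).smul h1
  · rintro x ⟨hxB, hx⟩
    have hN0 : N x ≠ 0 := by
      intro h
      apply hx
      have := hin x 4
      rw [h, inner_zero_right] at this
      simpa using this.symm
    refine ⟨?_, ?_, ?_⟩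
    · rw [norm_smul, norm_inv, norm_norm]
      exact inv_mul_cancel₀ (norm_ne_zero_iff.2 hN0)
    · have h0 := hin x 0
      rw [inner_smul_right]
      have : inner ℝ (f x) (N x) = (0 : ℝ) := h0
      rw [this, mul_zero]
    · intro w
      rw [inner_smul_right]
      have : inner ℝ (fderiv ℝ f x w) (N x) = (0 : ℝ) := by
        refine inner_of_single _ _ (fun i => ?_) w
        fin_cases i
        · exact hin x 1
        · exact hin x 2
        · exact hin x 3
      rw [this, mul_zero]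

end Bry.Mfd
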