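import Pool.Agent.Lib.MP_2b07f9_gt.Mfd.Geo

/-! The shape operator is self-adjoint, hence its characteristic polynomial splits. -/

set_option autoImplicit false

open scoped Manifold ContDiff Topology
open Module

namespace Bry.Mfd

variable {M : Type*} [TopologicalSpace M] [ChartedSpace E3 M] [IsManifold 𝓘(ℝ, E3) ∞ M]

theorem sff_symm {B : Set E3} (hB : IsOpen B) {f n : E3 → E5} (hf : ContDiffOn ℝ ∞ f B)
    (hn : ContDiffOn ℝ ∞ n B) (h0 : ∀ y ∈ B, ∀ w, inner ℝ (fderiv ℝ f y w) (n y) = (0 : ℝ))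
    {x : E3} (hx : x ∈ B) (u w : E3) :
    inner ℝ (fderiv ℝ f x w) (fderiv ℝ n x u) = (inner ℝ (fderiv ℝ f x u) (fderiv ℝ n x w) : ℝ) := by
  have hff : ContDiffOn ℝ ∞ (fderiv ℝ f) B := hf.fderiv_of_isOpen hB (m := ∞) (by simp)
  have hfd : ∀ y ∈ B, DifferentiableAt ℝ (fderiv ℝ f) y := fun y hy =>
    (hff.differentiableOn (by simp)).differentiableAt (hB.mem_nhds hy)
  have hnd : ∀ y ∈ B, DifferentiableAt ℝ n y := fun y hy =>
    (hn.differentiableOn (by simp)).differentiableAt (hB.mem_nhds hy)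
  have hsymm : IsSymmSndFDerivAt ℝ f x :=
    (hf.contDiffAt (hB.mem_nhds hx)).isSymmSndFDerivAt (by
      simp only [minSmoothness_of_isRCLikeNormedField]
      exact WithTop.coe_le_coe.2 le_top)
  have key : ∀ a b : E3, inner ℝ (fderiv ℝ f x a) (fderiv ℝ n x b)
      + inner ℝ (fderiv ℝ (fderiv ℝ f) x b a) (n x) = (0 : ℝ) := by
    intro a b
    have h1 := inner_deriv_eq_zero hB (f := fun y => fderiv ℝ f y a) (g := n)
      (fun y hy => (hfd y hy).clm_apply (differentiableAt_const a)) hnd 0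
      (fun y hy => h0 y hy a) hx b
    have h2 : fderiv ℝ (fun y => fderiv ℝ f y a) x b = fderiv ℝ (fderiv ℝ f) x b a := by
      rw [fderiv_clm_apply (hfd x hx) (differentiableAt_const a)]
      simp
    rw [h2] at h1
    exact h1
  have h1 := key w u
  have h2 := key u w
  rw [hsymm.eq u w] at h1
  linarith

theorem splits_shape_patch {F ν : M → E5} {V : Set M} (hF : IsHypersurface E3 F)
    (hν : IsUnitNormal E3 F V ν) (p : M) {x : E3} (hx : x ∈ tgt p V)
    (A : TangentSpace 𝓘(ℝ, E3) ((extChartAt 𝓘(ℝ, E3) p).symm x) →ₗ[ℝ]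
      TangentSpace 𝓘(ℝ, E3) ((extChartAt 𝓘(ℝ, E3) p).symm x))
    (hA : IsShapeOperator E3 F ν ((extChartAt 𝓘(ℝ, E3) p).symm x) A) : A.charpoly.Splits := by
  obtain ⟨D, hD⟩ := exists_patch hF hν p hx
  set L : E3 →L[ℝ] E5 := fderiv ℝ (F ∘ (extChartAt 𝓘(ℝ, E3) p).symm) x with hL
  set N : E3 →L[ℝ] E5 := fderiv ℝ (ν ∘ (extChartAt 𝓘(ℝ, E3) p).symm) x with hN
  have hinj : Function.Injective L := inj_patch hF p hx.1
  set T : E3 →ₗ[ℝ] E3 := D.symm.conj A with hT
  have hTw : ∀ w, L (T w) = - N w := by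
    intro w
    rw [hT, LinearEquiv.conj_apply_apply, hL, hD.dF, D.apply_symm_apply, hN, hD.dν]
    exact hA (D w)
  let e : E3 ≃ₗ[ℝ] LinearMap.range (L : E3 →ₗ[ℝ] E5) :=
    LinearEquiv.ofInjective (L : E3 →ₗ[ℝ] E5) hinj
  have hs : ((e.conj T)).IsSymmetric := by
    intro a b
    obtain ⟨u, rfl⟩ := e.surjective a
    obtain ⟨w, rfl⟩ := e.surjective b
    have hc : ∀ z, e.conj T (e z) = e (T z) := by
      intro z
      rw [LinearEquiv.conj_apply_apply, e.symm_apply_apply]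
    rw [hc, hc]
    change inner ℝ (L (T u)) (L w) = (inner ℝ (L u) (L (T w)) : ℝ)
    rw [hTw, hTw, inner_neg_left, inner_neg_right, neg_inj, real_inner_comm]
    exact sff_symm (isOpen_tgt p hν.isOpen) (smooth_comp p hF.smooth.contMDiffOn)
      (smooth_comp p hν.smooth) (fun y hy w => normal_patch hF hν p hy w) hx u w
  have h1 := hs.splits_charpoly
  rw [LinearEquiv.charpoly_conj, hT, LinearEquiv.charpoly_conj] at h1
  exact h1

theorem splits_shape {F ν : M → E5} {V : Set M} (hF : IsHypersurface E3 F)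
    (hν : IsUnitNormal E3 F V ν) {q : M} (hq : q ∈ V)
    (A : TangentSpace 𝓘(ℝ, E3) q →ₗ[ℝ] TangentSpace 𝓘(ℝ, E3) q)
    (hA : IsShapeOperator E3 F ν q A) : A.charpoly.Splits := by
  have h1 : (extChartAt 𝓘(ℝ, E3) q).symm (extChartAt 𝓘(ℝ, E3) q q) = q :=
    extChartAt_to_inv q
  have h2 : extChartAt 𝓘(ℝ, E3) q q ∈ tgt q V := by
    refine ⟨mem_extChartAt_target q, ?_⟩
    rw [Set.mem_preimage, h1]; exact hq
  have h3 := splits_shape_patch hF hν q h2
  rw [h1] at h3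
  exact h3 A hA

end Bry.Mfd
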